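import Mathlib
import Pool.Agent.Lib.MP_577a3c_an.Defs
import Pool.Agent.Lib.MP_577a3c_an.Proof

/-!
# MP_577a3c_an: oscillation of rough singular integrals away from a ball (negative answer)
-/

open MeasureTheory Pool.Agent.Lib.MP_577a3c_an

namespace Pool.Agent.Results.MP_577a3c_an.RoughOscillation

/-- For every dimension `d ≥ 2` there is a continuous odd (hence bounded and mean-zero) function
`Ω` on the unit sphere `𝕊^{d-1}` for which the inequality `(∗)` fails for every exponent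
`r ∈ [1, ∞)`. -/
theorem result (d : ℕ) (hd : 2 ≤ d) :
    ∃ Ω : S d → ℝ, Continuous Ω ∧ (∀ ω, Ω (-ω) = -Ω ω) ∧
      ∫ ω, Ω ω ∂((volume : Measure (E d)).toSphere) = 0 ∧
      ∀ r : ℝ, 1 ≤ r → ¬ OscillationInequality Ω r := by
  obtain ⟨n, rfl⟩ : ∃ n, d = n + 2 := ⟨d - 2, by omega⟩
  obtain ⟨Ω, h1, h2⟩ := core n
  exact ⟨Ω, Ω.continuous, h1, integral_odd h1, h2⟩

end Pool.Agent.Results.MP_577a3c_an.RoughOscillation
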